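import Mathlib

namespace Pool.Agent.Q120.McCoy

open Finset.HasAntidiagonal (antidiagonal)

/-- `S` is right McCoy: if two nonzero polynomials `f = ∑ f_i x^i`, `g = ∑ g_j x^j` over `S`
(given by their finitely supported coefficient families) satisfy `f g = 0`, then `f s = 0` for
some nonzero `s` in `S`. -/
def RightMcCoy (S : Type*) [NonUnitalRing S] : Prop :=
  ∀ f g : ℕ →₀ S, f ≠ 0 → g ≠ 0 →
    (∀ n, ∑ p ∈ antidiagonal n, f p.1 * g p.2 = 0) → ∃ s : S, s ≠ 0 ∧ ∀ i, f i * s = 0

/-- `S` is left McCoy: if two nonzero polynomials `f = ∑ f_i x^i`, `g = ∑ g_j x^j` over `S`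
(given by their finitely supported coefficient families) satisfy `f g = 0`, then `s g = 0` for
some nonzero `s` in `S`. -/
def LeftMcCoy (S : Type*) [NonUnitalRing S] : Prop :=
  ∀ f g : ℕ →₀ S, f ≠ 0 → g ≠ 0 →
    (∀ n, ∑ p ∈ antidiagonal n, f p.1 * g p.2 = 0) → ∃ s : S, s ≠ 0 ∧ ∀ i, s * g i = 0

/-- `S` is right Dischinger: every `a` with `a = a ^ 2 y` for some `y` also satisfies
`a = z a ^ 2` for some `z`. -/
def RightDischinger (S : Type*) [NonUnitalRing S] : Prop :=
  ∀ a : S, (∃ y : S, a = a * a * y) → ∃ z : S, a = z * (a * a)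

section Tri

variable {K : Type*} [Field K] {B : Type*} [LinearOrder B]

open Classical in
/-- Unitriangular up to the scalar `c`: `f e_b = c e_b +` terms with larger indices. -/
def Tri (c : K) (f : Module.End K (B →₀ K)) : Prop :=
  ∀ b b', b' ≤ b → f (Finsupp.single b 1) b' = if b' = b then c else 0

lemma Tri.apply {c : K} {f : Module.End K (B →₀ K)} (hf : Tri c f) (v : B →₀ K) (b0 : B)
    (hv : ∀ b ∈ v.support, b0 ≤ b) : f v b0 = c * v b0 := by
  classical
  have h1 : v = ∑ b ∈ v.support, v b • Finsupp.single b (1 : K) := by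
    conv_lhs => rw [← Finsupp.sum_single v]
    simp [Finsupp.sum]
  have h2 : f v b0 = ∑ b ∈ v.support, v b * (if b0 = b then c else 0) := by
    conv_lhs => rw [h1]
    rw [map_sum, Finsupp.coe_finsetSum, Finset.sum_apply]
    refine Finset.sum_congr rfl fun b hb => ?_
    rw [map_smul, Finsupp.smul_apply, hf b b0 (hv b hb), smul_eq_mul]
  rw [h2]
  simp only [mul_ite, mul_zero]
  rw [Finset.sum_ite_eq]
  split_ifs with h
  · ring
  · rw [Finsupp.notMem_support_iff.mp h, mul_zero]

lemma Tri.add {c d : K} {f g : Module.End K (B →₀ K)} (hf : Tri c f) (hg : Tri d g) :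
    Tri (c + d) (f + g) := by
  intro b b' h
  rw [LinearMap.add_apply, Finsupp.add_apply, hf b b' h, hg b b' h]
  split_ifs <;> simp

lemma Tri.neg {c : K} {f : Module.End K (B →₀ K)} (hf : Tri c f) : Tri (-c) (-f) := by
  intro b b' h
  rw [LinearMap.neg_apply, Finsupp.neg_apply, hf b b' h]
  split_ifs <;> simp

lemma tri_zero : Tri 0 (0 : Module.End K (B →₀ K)) := by
  intro b b' _
  split_ifs <;> rfl

lemma tri_one : Tri 1 (1 : Module.End K (B →₀ K)) := by
  classical
  intro b b' _
  rw [Module.End.one_apply, Finsupp.single_apply]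
  by_cases h : b' = b
  · simp [h]
  · simp [h, Ne.symm h]

lemma Tri.smul' {c : K} {f : Module.End K (B →₀ K)} (hf : Tri c f) (r : K) :
    Tri (r * c) (r • f) := by
  intro b b' h
  rw [LinearMap.smul_apply, Finsupp.smul_apply, hf b b' h, smul_eq_mul]
  split_ifs <;> simp

lemma Tri.mul {c d : K} {f g : Module.End K (B →₀ K)} (hf : Tri c f) (hg : Tri d g) :
    Tri (c * d) (f * g) := by
  classical
  intro b b' h
  have h1 : ∀ b'' ∈ (g (Finsupp.single b 1)).support, b' ≤ b'' := by
    intro b'' hb''
    by_contra hcon
    have hlt : b'' < b' := not_le.mp hcon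
    rw [Finsupp.mem_support_iff] at hb''
    apply hb''
    rw [hg b b'' (hlt.le.trans h), if_neg (ne_of_lt (lt_of_lt_of_le hlt h))]
  rw [Module.End.mul_apply, hf.apply _ b' h1, hg b b' h]
  split_ifs <;> simp

variable (K B)

/-- The subring of operators of the form scalar plus strictly increasing operator. -/
def ring : Subring (Module.End K (B →₀ K)) where
  carrier := {f | ∃ c : K, Tri c f}
  mul_mem' := by
    rintro f g ⟨c, hc⟩ ⟨d, hd⟩
    exact ⟨c * d, hc.mul hd⟩
  one_mem' := ⟨1, tri_one⟩
  add_mem' := by
    rintro f g ⟨c, hc⟩ ⟨d, hd⟩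
    exact ⟨c + d, hc.add hd⟩
  zero_mem' := ⟨0, tri_zero⟩
  neg_mem' := by
    rintro f ⟨c, hc⟩
    exact ⟨-c, hc.neg⟩

/-- `ring K B` is a `K`-algebra. -/
@[instance_reducible] noncomputable def alg : Algebra K (ring K B) :=
  inferInstanceAs (Algebra K ({ ring K B with
    algebraMap_mem' := fun r => ⟨r, by
      have h := (tri_one (K := K) (B := B)).smul' r
      rwa [mul_one] at h⟩ } : Subalgebra K (Module.End K (B →₀ K))))

variable {K B}

open Classical in
/-- If `B` has a greatest element and another element, the ring is right McCoy. -/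
theorem rightMcCoy [OrderTop B] (b0 : B) (hb0 : b0 < ⊤) : RightMcCoy (ring K B) := by
  intro f g hf hg hfg
  choose c hc using fun i => (f i).2
  -- the operator `e_{b0} ↦ e_⊤`
  let s : Module.End K (B →₀ K) := (Finsupp.lsingle (⊤ : B)).comp (Finsupp.lapply b0)
  have hs_apply : ∀ v, s v = Finsupp.single ⊤ (v b0) := fun v => rfl
  have hs : Tri 0 s := by
    intro b b' h
    rw [hs_apply, ite_self]
    by_cases hb : b = b0
    · subst hb
      rw [Finsupp.single_eq_of_ne (ne_of_lt (lt_of_le_of_lt h hb0))]
    · rw [Finsupp.single_eq_of_ne (Ne.symm hb)]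
      simp
  by_cases hall : ∀ i, c i = 0
  · refine ⟨⟨s, 0, hs⟩, ?_, ?_⟩
    · intro h0
      have h1 : s = 0 := congrArg Subtype.val h0
      have h2 : s (Finsupp.single b0 1) ⊤ = 0 := by
        rw [h1]; rfl
      rw [hs_apply] at h2
      simp at h2
    · intro i
      apply Subtype.ext
      have hi := hc i
      rw [hall i] at hi
      change (f i : Module.End K (B →₀ K)) * s = 0
      refine LinearMap.ext fun v => ?_
      refine Finsupp.ext fun b' => ?_
      change (f i : Module.End K (B →₀ K)) (s v) b' = 0
      rw [hs_apply]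
      have : Finsupp.single (⊤ : B) (v b0) = (v b0) • Finsupp.single ⊤ (1 : K) := by simp
      rw [this, map_smul, Finsupp.smul_apply, hi ⊤ b' le_top, ite_self, smul_zero]
  · exfalso
    push Not at hall
    -- choose the least `n0` with `c n0 ≠ 0`
    let n0 := Nat.find hall
    have hn0 : c n0 ≠ 0 := Nat.find_spec hall
    have hlt : ∀ i < n0, c i = 0 := fun i hi => by
      have := Nat.find_min hall hi
      push Not at this
      exact this
    -- choose a basis vector not killed by `g`
    obtain ⟨j1, hj1⟩ := Finsupp.ne_iff.mp hg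
    obtain ⟨b1, hb1⟩ : ∃ b1, ((g j1 : ring K B) : Module.End K (B →₀ K)) (Finsupp.single b1 1) ≠ 0 := by
      by_contra hcon
      push Not at hcon
      apply hj1
      apply Subtype.ext
      change ((g j1 : ring K B) : Module.End K (B →₀ K)) = 0
      refine Finsupp.lhom_ext' fun b => ?_
      refine LinearMap.ext_ring ?_
      exact hcon b
    let t : ℕ → (B →₀ K) := fun j => ((g j : ring K B) : Module.End K (B →₀ K)) (Finsupp.single b1 1)
    have ht0 : ∀ j, j ∉ g.support → t j = 0 := by
      intro j hj
      rw [Finsupp.notMem_support_iff] at hj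
      change ((g j : ring K B) : Module.End K (B →₀ K)) _ = 0
      rw [hj]; rfl
    let U : Finset B := g.support.biUnion fun j => (t j).support
    have hU : ∀ j b, b ∈ (t j).support → b ∈ U := by
      intro j b hb
      rw [Finset.mem_biUnion]
      refine ⟨j, ?_, hb⟩
      by_contra h
      rw [ht0 j h] at hb
      simp at hb
    have hUne : U.Nonempty := by
      obtain ⟨b, hb⟩ := Finsupp.support_nonempty_iff.mpr hb1
      exact ⟨b, hU j1 b hb⟩
    let v0 := U.min' hUne
    have hv0 : ∀ j, ∀ b ∈ (t j).support, v0 ≤ b := fun j b hb => Finset.min'_le _ _ (hU j b hb)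
    have hex : ∃ j, t j v0 ≠ 0 := by
      have := Finset.min'_mem U hUne
      rw [Finset.mem_biUnion] at this
      obtain ⟨j, _, hj⟩ := this
      exact ⟨j, Finsupp.mem_support_iff.mp hj⟩
    let j0 := Nat.find hex
    have hj0 : t j0 v0 ≠ 0 := Nat.find_spec hex
    have hj0lt : ∀ j < j0, t j v0 = 0 := fun j hj => by
      have := Nat.find_min hex hj
      push Not at this
      exact this
    -- the coefficient of `v0` in degree `n0 + j0`
    have h1 := hfg (n0 + j0)
    have h2 := congrArg (fun z : ring K B => (z : Module.End K (B →₀ K)) (Finsupp.single b1 1) v0) h1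
    have h3 : (fun z : ring K B => (z : Module.End K (B →₀ K)) (Finsupp.single b1 1) v0)
        (∑ p ∈ antidiagonal (n0 + j0), f p.1 * g p.2) =
        ∑ p ∈ antidiagonal (n0 + j0), c p.1 * t p.2 v0 := by
      have e : ((∑ p ∈ antidiagonal (n0 + j0), f p.1 * g p.2 : ring K B) :
          Module.End K (B →₀ K)) = ∑ p ∈ antidiagonal (n0 + j0),
          ((f p.1 : ring K B) : Module.End K (B →₀ K)) * ((g p.2 : ring K B) : Module.End K (B →₀ K)) := by
        rw [AddSubmonoidClass.coe_finsetSum]
        rfl
      simp only [e]
      rw [LinearMap.sum_apply, Finsupp.coe_finsetSum, Finset.sum_apply]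
      refine Finset.sum_congr rfl fun p _ => ?_
      exact (hc p.1).apply (t p.2) v0 (hv0 p.2)
    have h2' := h3.symm.trans h2
    have h5 : ∑ p ∈ antidiagonal (n0 + j0), c p.1 * t p.2 v0 = c n0 * t j0 v0 := by
      rw [Finset.sum_eq_single (n0, j0)]
      · intro p hp hne
        rw [Finset.HasAntidiagonal.mem_antidiagonal] at hp
        rcases lt_trichotomy p.1 n0 with h | h | h
        · rw [hlt _ h, zero_mul]
        · exfalso
          apply hne
          ext
          · exact h
          · simp only; omega
        · rw [hj0lt p.2 (by omega), mul_zero]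
      · intro h
        exact absurd (Finset.HasAntidiagonal.mem_antidiagonal.mpr (show (n0, j0).1 + (n0, j0).2 = n0 + j0 from rfl)) h
    rw [h5] at h2'
    have h6 : c n0 * t j0 v0 = 0 := h2'
    exact (mul_ne_zero hn0 hj0) h6

end Tri

section words

/-- Auxiliary partial map on words (head = last letter): replaces the part of the word from the
deepest `false` on by a single `true`. -/
def aw : List Bool → Option (List Bool)
  | [] => none
  | h :: l => match aw l with
    | some m => some (h :: m)
    | none => if h = false then some [true] else none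

lemma aw_append_false (l : List Bool) : aw (l ++ [false]) = some (l ++ [true]) := by
  induction l with
  | nil => simp [aw]
  | cons h l ih => simp [aw, ih]

lemma aw_append_true (l : List Bool) : aw (l ++ [true]) = aw l := by
  induction l with
  | nil => simp [aw]
  | cons h l ih => simp [aw, ih]

lemma lt_aw (l m : List Bool) (h : aw l = some m) : l < m := by
  induction l generalizing m with
  | nil => simp [aw] at h
  | cons x l ih =>
    unfold aw at h
    cases hl : aw l with
    | some m' =>
      rw [hl] at h
      simp only [Option.some.injEq] at h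
      subst h
      exact List.cons_lt_cons_self.mpr (ih m' hl)
    | none =>
      rw [hl] at h
      simp only at h
      split_ifs at h with hx
      simp only [Option.some.injEq] at h
      subst h hx
      exact List.Lex.rel (by decide)

lemma lt_append_false (l : List Bool) : l < l ++ [false] := by
  induction l with
  | nil => exact List.Lex.nil
  | cons x l ih => exact List.cons_lt_cons_self.mpr ih

variable (K : Type*) [Field K]

/-- The index set: words, and a greatest element. -/
abbrev W : Type := WithTop (List Bool)

/-- The operator with prescribed values on the basis. -/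
noncomputable def op (φ : W → (W →₀ K)) : Module.End K (W →₀ K) := Finsupp.lift (W →₀ K) K W φ

lemma op_single (φ : W → (W →₀ K)) (b : W) : op K φ (Finsupp.single b 1) = φ b := by
  rw [op, Finsupp.lift_apply, Finsupp.sum_single_index (by simp), one_smul]

/-- The operator `y`. -/
noncomputable def yo : Module.End K (W →₀ K) :=
  op K fun b => match b with
    | ⊤ => 0
    | WithTop.some l => Finsupp.single (WithTop.some (l ++ [false])) 1

/-- The operator `a`. -/
noncomputable def ao : Module.End K (W →₀ K) :=
  op K fun b => match b with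
    | ⊤ => 0
    | WithTop.some l => match aw l with
      | none => 0
      | some m => Finsupp.single (WithTop.some m) 1

lemma yo_some (l : List Bool) : yo K (Finsupp.single (WithTop.some l) 1) =
    Finsupp.single (WithTop.some (l ++ [false])) 1 := by rw [yo, op_single]

lemma yo_none : yo K (Finsupp.single ⊤ 1) = 0 := by rw [yo, op_single]

lemma ao_none : ao K (Finsupp.single ⊤ 1) = 0 := by rw [ao, op_single]

lemma ao_some (l m : List Bool) (h : aw l = some m) :
    ao K (Finsupp.single (WithTop.some l) 1) = Finsupp.single (WithTop.some m) 1 := by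
  rw [ao, op_single]
  simp only [h]

lemma ao_some_none (l : List Bool) (h : aw l = none) :
    ao K (Finsupp.single (WithTop.some l) 1) = 0 := by
  rw [ao, op_single]
  simp only [h]

lemma tri_yo : Tri 0 (yo K) := by
  intro b b' h
  rw [ite_self]
  induction b using WithTop.recTopCoe with
  | top => rw [yo_none]; rfl
  | coe l =>
    rw [yo_some]
    apply Finsupp.single_eq_of_ne
    have : ((l : List Bool) : W) < ((l ++ [false] : List Bool) : W) :=
      WithTop.coe_lt_coe.mpr (lt_append_false l)
    exact ne_of_lt (lt_of_le_of_lt h this)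

lemma tri_ao : Tri 0 (ao K) := by
  intro b b' h
  rw [ite_self]
  induction b using WithTop.recTopCoe with
  | top => rw [ao_none]; rfl
  | coe l =>
    cases hl : aw l with
    | none => rw [ao_some_none K l hl]; rfl
    | some m =>
      rw [ao_some K l m hl]
      apply Finsupp.single_eq_of_ne
      have : ((l : List Bool) : W) < ((m : List Bool) : W) :=
        WithTop.coe_lt_coe.mpr (lt_aw l m hl)
      exact ne_of_lt (lt_of_le_of_lt h this)

lemma rel : ao K = ao K * ao K * yo K := by
  refine Finsupp.lhom_ext' fun b => ?_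
  refine LinearMap.ext_ring ?_
  change ao K (Finsupp.single b 1) = ao K (ao K (yo K (Finsupp.single b 1)))
  induction b using WithTop.recTopCoe with
  | top => rw [yo_none, ao_none, map_zero, map_zero]
  | coe l =>
    rw [yo_some, ao_some K _ _ (aw_append_false l)]
    cases hl : aw l with
    | none => rw [ao_some_none K l hl, ao_some_none K _ ((aw_append_true l).trans hl)]
    | some m => rw [ao_some K l m hl, ao_some K _ m ((aw_append_true l).trans hl)]

lemma not_rel (z : Module.End K (W →₀ K)) : ao K ≠ z * (ao K * ao K) := by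
  intro h
  have h1 := congrArg (fun f : Module.End K (W →₀ K) => f (Finsupp.single (WithTop.some [false]) 1)) h
  have h2 : ao K (Finsupp.single (WithTop.some [false]) 1) =
      z (ao K (ao K (Finsupp.single (WithTop.some [false]) 1))) := h1
  rw [ao_some K [false] [true] (by simp [aw]), ao_some_none K [true] (by simp [aw]), map_zero] at h2
  simp at h2

theorem not_dischinger : ¬ RightDischinger (ring K W) := by
  intro h
  obtain ⟨z, hz⟩ := h ⟨ao K, 0, tri_ao K⟩ ⟨⟨yo K, 0, tri_yo K⟩, Subtype.ext (rel K)⟩
  exact not_rel K z (congrArg Subtype.val hz)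

theorem mcCoy : RightMcCoy (ring K W) :=
  rightMcCoy (B := W) (((([] : List Bool)) : W)) (WithTop.coe_lt_top _)

end words

end Pool.Agent.Q120.McCoy
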