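import Mathlib

namespace Pool.Agent.Q120

/-- The skew Laurent series ring `A((x, φ))`: a formal series `∑_{i ≥ n} a_i x^i` is given by its
family of coefficients `i ↦ a_i`, which vanishes for all sufficiently negative `i`. -/
@[ext] structure SkewLaurent {A : Type*} [Ring A] (φ : RingAut A) where
  /-- the coefficients -/
  coeff : ℤ → A
  bdd : ∃ n : ℤ, ∀ i < n, coeff i = 0

namespace SkewLaurent

variable {A : Type*} [Ring A] {φ : RingAut A}

lemma coeff_injective : Function.Injective (coeff : SkewLaurent φ → ℤ → A) := by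
  intro f g h
  exact SkewLaurent.ext h

instance : Zero (SkewLaurent φ) := ⟨⟨0, 0, fun _ _ => rfl⟩⟩
instance : Add (SkewLaurent φ) := ⟨fun f g => ⟨f.coeff + g.coeff, by
  obtain ⟨m, hm⟩ := f.bdd
  obtain ⟨n, hn⟩ := g.bdd
  refine ⟨min m n, fun i hi => ?_⟩
  rw [Pi.add_apply, hm i (lt_of_lt_of_le hi (min_le_left _ _)),
    hn i (lt_of_lt_of_le hi (min_le_right _ _)), add_zero]⟩⟩
instance : Neg (SkewLaurent φ) := ⟨fun f => ⟨-f.coeff, by
  obtain ⟨m, hm⟩ := f.bdd
  exact ⟨m, fun i hi => by rw [Pi.neg_apply, hm i hi, neg_zero]⟩⟩⟩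
instance : Sub (SkewLaurent φ) := ⟨fun f g => ⟨f.coeff - g.coeff, by
  obtain ⟨m, hm⟩ := f.bdd
  obtain ⟨n, hn⟩ := g.bdd
  refine ⟨min m n, fun i hi => ?_⟩
  rw [Pi.sub_apply, hm i (lt_of_lt_of_le hi (min_le_left _ _)),
    hn i (lt_of_lt_of_le hi (min_le_right _ _)), sub_zero]⟩⟩
instance : SMul ℕ (SkewLaurent φ) := ⟨fun n f => ⟨n • f.coeff, by
  obtain ⟨m, hm⟩ := f.bdd
  exact ⟨m, fun i hi => by rw [Pi.smul_apply, hm i hi, smul_zero]⟩⟩⟩
instance : SMul ℤ (SkewLaurent φ) := ⟨fun n f => ⟨n • f.coeff, by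
  obtain ⟨m, hm⟩ := f.bdd
  exact ⟨m, fun i hi => by rw [Pi.smul_apply, hm i hi, smul_zero]⟩⟩⟩

/-- The monomial `a x^n`. -/
def monomial (φ : RingAut A) (n : ℤ) (a : A) : SkewLaurent φ :=
  ⟨fun i => if i = n then a else 0, n, fun _ hi => if_neg (ne_of_lt hi)⟩

instance : One (SkewLaurent φ) := ⟨monomial φ 0 1⟩

lemma coeff_zero (i : ℤ) : (0 : SkewLaurent φ).coeff i = 0 := rfl
lemma coeff_add (f g : SkewLaurent φ) (i : ℤ) : (f + g).coeff i = f.coeff i + g.coeff i := rfl
lemma coeff_neg (f : SkewLaurent φ) (i : ℤ) : (-f).coeff i = -f.coeff i := rfl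
lemma coeff_sub (f g : SkewLaurent φ) (i : ℤ) : (f - g).coeff i = f.coeff i - g.coeff i := rfl
lemma coeff_monomial (n : ℤ) (a : A) (i : ℤ) :
    (monomial φ n a).coeff i = if i = n then a else 0 := rfl
lemma coeff_one (i : ℤ) : (1 : SkewLaurent φ).coeff i = if i = 0 then 1 else 0 :=
  coeff_monomial 0 1 i

/-- The summands of the coefficient of `x ^ k` in the product vanish outside an interval. -/
lemma support_term {f g : ℤ → A} {m n : ℤ} (hm : ∀ i < m, f i = 0) (hn : ∀ i < n, g i = 0)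
    (k : ℤ) : (Function.support fun i => f i * (φ ^ i) (g (k - i))) ⊆ Finset.Icc m (k - n) := by
  intro i hi
  rw [Function.mem_support] at hi
  rw [Finset.coe_Icc, Set.mem_Icc]
  constructor
  · by_contra h
    apply hi
    rw [hm i (not_le.mp h), zero_mul]
  · by_contra h
    apply hi
    rw [hn (k - i) (by omega), map_zero, mul_zero]

/-- Multiplication: `(∑ a_i x^i) (∑ b_j x^j) = ∑_k (∑_i a_i φ^i(b_{k-i})) x^k`. -/
noncomputable instance : Mul (SkewLaurent φ) := ⟨fun f g =>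
  ⟨fun k => ∑ᶠ i : ℤ, f.coeff i * (φ ^ i) (g.coeff (k - i)), by
    obtain ⟨m, hm⟩ := f.bdd
    obtain ⟨n, hn⟩ := g.bdd
    refine ⟨m + n, fun k hk => ?_⟩
    rw [finsum_eq_sum_of_support_subset _ (support_term hm hn k)]
    rw [Finset.Icc_eq_empty (by omega), Finset.sum_empty]⟩⟩

lemma coeff_mul (f g : SkewLaurent φ) (k : ℤ) :
    (f * g).coeff k = ∑ᶠ i : ℤ, f.coeff i * (φ ^ i) (g.coeff (k - i)) := rfl

lemma coeff_mul_eq_sum {f g : SkewLaurent φ} {m n : ℤ} (hm : ∀ i < m, f.coeff i = 0)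
    (hn : ∀ i < n, g.coeff i = 0) (k : ℤ) :
    (f * g).coeff k = ∑ i ∈ Finset.Icc m (k - n), f.coeff i * (φ ^ i) (g.coeff (k - i)) := by
  rw [coeff_mul]
  exact finsum_eq_sum_of_support_subset _ (support_term hm hn k)

lemma coeff_mul_lt {f g : SkewLaurent φ} {m n : ℤ} (hm : ∀ i < m, f.coeff i = 0)
    (hn : ∀ i < n, g.coeff i = 0) (k : ℤ) (hk : k < m + n) : (f * g).coeff k = 0 := by
  rw [coeff_mul_eq_sum hm hn, Finset.Icc_eq_empty (by omega), Finset.sum_empty]

lemma coeff_mul_bot {f g : SkewLaurent φ} {m n : ℤ} (hm : ∀ i < m, f.coeff i = 0)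
    (hn : ∀ i < n, g.coeff i = 0) :
    (f * g).coeff (m + n) = f.coeff m * (φ ^ m) (g.coeff n) := by
  rw [coeff_mul_eq_sum hm hn, show m + n - n = m by ring, Finset.Icc_self, Finset.sum_singleton,
    show m + n - m = n by ring]

lemma coeff_monomial_mul (n : ℤ) (a : A) (g : SkewLaurent φ) (k : ℤ) :
    (monomial φ n a * g).coeff k = a * (φ ^ n) (g.coeff (k - n)) := by
  rw [coeff_mul, finsum_eq_single _ n]
  · rw [coeff_monomial, if_pos rfl]
  · intro i hi
    rw [coeff_monomial, if_neg hi, zero_mul]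

lemma coeff_mul_monomial (n : ℤ) (a : A) (f : SkewLaurent φ) (k : ℤ) :
    (f * monomial φ n a).coeff k = f.coeff (k - n) * (φ ^ (k - n)) a := by
  rw [coeff_mul, finsum_eq_single _ (k - n)]
  · rw [coeff_monomial, if_pos (by ring)]
  · intro i hi
    rw [coeff_monomial, if_neg (by omega), map_zero, mul_zero]

lemma mul_assoc' (f g h : SkewLaurent φ) : f * g * h = f * (g * h) := by
  obtain ⟨m, hm⟩ := f.bdd
  obtain ⟨n, hn⟩ := g.bdd
  obtain ⟨l, hl⟩ := h.bdd
  have h1 : ∀ i < m + n, (f * g).coeff i = 0 := fun i hi => coeff_mul_lt hm hn i hi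
  have h2 : ∀ i < n + l, (g * h).coeff i = 0 := fun i hi => coeff_mul_lt hn hl i hi
  apply SkewLaurent.ext
  funext k
  rw [coeff_mul_eq_sum h1 hl, coeff_mul_eq_sum hm h2]
  have e1 : ∀ i ∈ Finset.Icc (m + n) (k - l),
      (f * g).coeff i * (φ ^ i) (h.coeff (k - i)) =
      ∑ j ∈ Finset.Icc m (i - n),
        f.coeff j * (φ ^ j) (g.coeff (i - j)) * (φ ^ i) (h.coeff (k - i)) := by
    intro i _
    rw [coeff_mul_eq_sum hm hn, Finset.sum_mul]
  have e2 : ∀ j ∈ Finset.Icc m (k - (n + l)),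
      f.coeff j * (φ ^ j) ((g * h).coeff (k - j)) =
      ∑ i ∈ Finset.Icc (j + n) (k - l),
        f.coeff j * (φ ^ j) (g.coeff (i - j)) * (φ ^ i) (h.coeff (k - i)) := by
    intro j _
    rw [coeff_mul_eq_sum hn hl, map_sum, Finset.mul_sum]
    refine Finset.sum_bij (fun t _ => j + t) ?_ ?_ ?_ ?_
    · intro t ht
      rw [Finset.mem_Icc] at ht ⊢
      omega
    · intro t _ t' _ h
      exact add_left_cancel h
    · intro i hi
      rw [Finset.mem_Icc] at hi
      exact ⟨i - j, by rw [Finset.mem_Icc]; omega, by ring⟩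
    · intro t _
      rw [map_mul, ← mul_assoc, zpow_add, RingAut.mul_apply, show j + t - j = t by ring,
        show k - j - t = k - (j + t) by ring]
  rw [Finset.sum_congr rfl e1, Finset.sum_congr rfl e2]
  apply Finset.sum_comm'
  intro i j
  simp only [Finset.mem_Icc]
  omega

lemma add_mul' (f g h : SkewLaurent φ) : (f + g) * h = f * h + g * h := by
  obtain ⟨m, hm⟩ := f.bdd
  obtain ⟨n, hn⟩ := g.bdd
  obtain ⟨l, hl⟩ := h.bdd
  have hm' : ∀ i < min m n, f.coeff i = 0 := fun i hi => hm i (lt_of_lt_of_le hi (min_le_left _ _))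
  have hn' : ∀ i < min m n, g.coeff i = 0 := fun i hi => hn i (lt_of_lt_of_le hi (min_le_right _ _))
  have hs : ∀ i < min m n, (f + g).coeff i = 0 := fun i hi => by
    rw [coeff_add, hm' i hi, hn' i hi, add_zero]
  apply SkewLaurent.ext
  funext k
  rw [coeff_add, coeff_mul_eq_sum hs hl, coeff_mul_eq_sum hm' hl, coeff_mul_eq_sum hn' hl,
    ← Finset.sum_add_distrib]
  refine Finset.sum_congr rfl fun i _ => ?_
  rw [coeff_add, add_mul]

lemma mul_add' (f g h : SkewLaurent φ) : f * (g + h) = f * g + f * h := by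
  obtain ⟨l, hl⟩ := f.bdd
  obtain ⟨m, hm⟩ := g.bdd
  obtain ⟨n, hn⟩ := h.bdd
  have hm' : ∀ i < min m n, g.coeff i = 0 := fun i hi => hm i (lt_of_lt_of_le hi (min_le_left _ _))
  have hn' : ∀ i < min m n, h.coeff i = 0 := fun i hi => hn i (lt_of_lt_of_le hi (min_le_right _ _))
  have hs : ∀ i < min m n, (g + h).coeff i = 0 := fun i hi => by
    rw [coeff_add, hm' i hi, hn' i hi, add_zero]
  apply SkewLaurent.ext
  funext k
  rw [coeff_add, coeff_mul_eq_sum hl hs, coeff_mul_eq_sum hl hm', coeff_mul_eq_sum hl hn',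
    ← Finset.sum_add_distrib]
  refine Finset.sum_congr rfl fun i _ => ?_
  rw [coeff_add, map_add, mul_add]

lemma one_mul' (f : SkewLaurent φ) : 1 * f = f := by
  apply SkewLaurent.ext
  funext k
  change (monomial φ 0 1 * f).coeff k = _
  rw [coeff_monomial_mul, zpow_zero, one_mul, sub_zero]
  rfl

lemma mul_one' (f : SkewLaurent φ) : f * 1 = f := by
  apply SkewLaurent.ext
  funext k
  change (f * monomial φ 0 1).coeff k = _
  rw [coeff_mul_monomial, map_one, mul_one, sub_zero]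

noncomputable instance : AddCommGroup (SkewLaurent φ) :=
  coeff_injective.addCommGroup coeff rfl (fun _ _ => rfl) (fun _ => rfl) (fun _ _ => rfl)
    (fun _ _ => rfl) (fun _ _ => rfl)

noncomputable instance : Ring (SkewLaurent φ) :=
  { (inferInstance : AddCommGroup (SkewLaurent φ)) with
    mul := (· * ·)
    one := 1
    mul_assoc := mul_assoc'
    one_mul := one_mul'
    mul_one := mul_one'
    left_distrib := mul_add'
    right_distrib := add_mul'
    zero_mul := fun f => by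
      apply SkewLaurent.ext
      funext k
      change (0 * f).coeff k = 0
      rw [coeff_mul]
      simp [coeff_zero]
    mul_zero := fun f => by
      apply SkewLaurent.ext
      funext k
      change (f * 0).coeff k = 0
      rw [coeff_mul]
      simp [coeff_zero] }

end SkewLaurent

end Pool.Agent.Q120
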